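import Pool.Agent.Helper77.R2.Tri

/-!
# R2: a piecewise affine minorant of a concave function of two variables

Nine triangles in the polygon with the vertices `(0,0), (M,0), (hM,1/2), (0,1)`.
-/

set_option autoImplicit false
open MeasureTheory Set

namespace Pool.Agent.Helper77.R2

lemma Tr_self (k l₀ a p : ℝ) : Tr k l₀ a a p = ∅ := by
  ext q
  simp only [Tr, mem_ofPred_eq, mem_empty_iff_false, iff_false]
  rintro ⟨_, _, h3, h4⟩
  linarith

theorem tri_lintegral' {k l₀ a b p x y z : ℝ} (hk : k ≠ 0) (hab : a ≤ b) (hx : 0 ≤ x) (hy : 0 ≤ y) (hz : 0 ≤ z) :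
    ∫⁻ q in Tr k l₀ a b p, ENNReal.ofReal (Lf k l₀ a b p x y z q) =
      ENNReal.ofReal ((b - a) * (x + y + z) / (6 * |k|)) := by
  rcases eq_or_lt_of_le hab with h | h
  · subst h
    rw [Tr_self]
    simp
  · exact tri_lintegral hk h hx hy hz

lemma Tr_lt {k l₀ a b p : ℝ} {q : ℝ × ℝ} (hq : q ∈ Tr k l₀ a b p) : a < b := by
  obtain ⟨h1, h2, h3, h4⟩ := hq
  have h5 : 0 < 1 - k * (q.2 - l₀) := by linarith
  by_contra h
  have h6 : b ≤ a := not_lt.mp h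
  have := mul_le_mul_of_nonneg_left h6 h5.le
  linarith

/-- The data of the nine triangles. -/
noncomputable def vk : Fin 9 → ℝ := ![-2, -2, 2, 2, -2, 2, 2, 2, 2]
noncomputable def v0 : Fin 9 → ℝ := ![1/2, 1/2, 0, 0, 1/2, 0, 1/2, 1/2, 1/2]
noncomputable def v1 : Fin 9 → ℝ := ![0, 0, 1/2, 1/2, 0, 1/2, 1, 1, 1]
noncomputable def va (M m : ℝ) : Fin 9 → ℝ := ![0, M/4, 0, M/2, M/2, m, 0, M/4, M/2]
noncomputable def vb (M m : ℝ) : Fin 9 → ℝ := ![M/4, M/2, M/2, m, m, M, M/4, M/2, m]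
noncomputable def vp (M m : ℝ) : Fin 9 → ℝ := ![0, 0, M/2, M/2, m, m, 0, 0, 0]
noncomputable def vx (A B C J G H : ℝ) : Fin 9 → ℝ := ![J, J, A, B, G, C, J, J, G]
noncomputable def vy (A B C J G H : ℝ) : Fin 9 → ℝ := ![J, G, B, C, H, 0, J, G, H]
noncomputable def vz (A B C J G H : ℝ) : Fin 9 → ℝ := ![A, A, G, G, C, H, 0, 0, 0]

/-- The nine triangles. -/
noncomputable def T (M m : ℝ) (i : Fin 9) : Set (ℝ × ℝ) := Tr (vk i) (v0 i) (va M m i) (vb M m i) (vp M m i)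

lemma T_pos {M m : ℝ} (hM : 0 < M) (h1 : M / 2 ≤ m) {i : Fin 9} {q : ℝ × ℝ} (hq : q ∈ T M m i) : 0 < q.1 ∧ 0 < q.2 := by
  obtain ⟨t, l⟩ := q
  have hm : 0 < m := by linarith
  obtain ⟨q1, q2, q3, q4⟩ := hq
  fin_cases i <;> simp [vk, v0, va, vb, vp] at q1 q2 q3 q4 ⊢ <;> refine ⟨?_, by linarith⟩ <;>
    nlinarith

lemma T_disj {M m : ℝ} (hM : 0 < M) (h1 : M / 2 ≤ m) (h2 : m ≤ M) {i j : Fin 9} (hij : i < j) {q : ℝ × ℝ}
    (hi : q ∈ T M m i) (hj : q ∈ T M m j) : False := by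
  obtain ⟨t, l⟩ := q
  obtain ⟨a1, a2, a3, a4⟩ := hi
  obtain ⟨b1, b2, b3, b4⟩ := hj
  fin_cases i <;> fin_cases j <;> simp [vk, v0, va, vb, vp] at hij a1 a2 a3 a4 b1 b2 b3 b4 <;> nlinarith

/-- One piece of the minorant. -/
noncomputable def pc (M m A B C J G H : ℝ) (i : Fin 9) : ℝ × ℝ → ENNReal :=
  (T M m i).indicator fun q => ENNReal.ofReal
    (Lf (vk i) (v0 i) (va M m i) (vb M m i) (vp M m i) (vx A B C J G H i) (vy A B C J G H i) (vz A B C J G H i) q)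

lemma measurable_pc (M m A B C J G H : ℝ) (i : Fin 9) : Measurable (pc M m A B C J G H i) :=
  (measurable_Lf _ _ _ _ _ _ _ _).ennreal_ofReal.indicator (measurableSet_Tr _ _ _ _ _)

lemma vkv (i : Fin 9) : vk i * (v1 i - v0 i) = 1 := by fin_cases i <;> simp [vk, v0, v1] <;> norm_num

lemma abs_vk (i : Fin 9) : |vk i| = 2 := by fin_cases i <;> simp [vk]

lemma vk_ne (i : Fin 9) : vk i ≠ 0 := by
  intro h
  have := abs_vk i
  rw [h] at this
  simp at this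

lemma va_le {M m : ℝ} (hM : 0 < M) (h1 : M / 2 ≤ m) (h2 : m ≤ M) (i : Fin 9) : va M m i ≤ vb M m i := by
  fin_cases i <;> simp [va, vb] <;> linarith

lemma v_nonneg {A B C J G H : ℝ} (hA : 0 ≤ A) (hB : 0 ≤ B)
    (hC : 0 ≤ C) (hJ : 0 ≤ J) (hG : 0 ≤ G) (hH : 0 ≤ H) (i : Fin 9) :
    0 ≤ vx A B C J G H i ∧ 0 ≤ vy A B C J G H i ∧ 0 ≤ vz A B C J G H i := by
  refine ⟨?_, ?_, ?_⟩
  · fin_cases i <;> simp [vx] <;> assumption
  · fin_cases i <;> simp [vy] <;> assumption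
  · fin_cases i <;> simp [vz] <;> assumption

lemma lintegral_pc {M m A B C J G H : ℝ} (hM : 0 < M) (h1 : M / 2 ≤ m) (h2 : m ≤ M) (hA : 0 ≤ A) (hB : 0 ≤ B)
    (hC : 0 ≤ C) (hJ : 0 ≤ J) (hG : 0 ≤ G) (hH : 0 ≤ H) (i : Fin 9) :
    ∫⁻ q, pc M m A B C J G H i q = ENNReal.ofReal
      ((vb M m i - va M m i) * (vx A B C J G H i + vy A B C J G H i + vz A B C J G H i) / (6 * 2)) := by
  obtain ⟨hx, hy, hz⟩ := v_nonneg hA hB hC hJ hG hH i
  rw [← abs_vk i, ← tri_lintegral' (vk_ne i) (va_le hM h1 h2 i) hx hy hz]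
  exact lintegral_indicator (measurableSet_Tr _ _ _ _ _) _

theorem minorant {g : ℝ → ℝ → ℝ} {D : Set (ℝ × ℝ)} (hc : ConcaveOn ℝ D (fun p => g p.1 p.2))
    (h0 : ∀ t l, 0 ≤ g t l) {M P h : ℝ} (hM : 0 < M) (hP : 0 < P) (h1 : 1/2 ≤ h) (h2 : h ≤ 1)
    (m00 : ((0:ℝ), (0:ℝ)) ∈ D) (m10 : (M, (0:ℝ)) ∈ D) (m01 : ((0:ℝ), (1:ℝ)) ∈ D) (mh : (h*M, (1/2:ℝ)) ∈ D)
    (mm : (M/2, (1/2:ℝ)) ∈ D) (hA : P ≤ g 0 0) (hanti : g (M/4) (1/2) ≤ g 0 (1/2))
    (i1 : 2*h*P < g (M/4) (1/2) + g (M/2) (1/2)) (i2 : 2*h*P < g (M/2) 0 + g (M/2) (1/2))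
    (i4 : P < g (h*M) 0 + g (h*M) (1/2)) :
    ∃ f : ℝ × ℝ → ENNReal, Measurable f ∧ (∀ t l, f (t,l) ≠ 0 → 0 < t ∧ 0 < l ∧ (t,l) ∈ D) ∧
      (∀ t l, f (t,l) ≤ ENNReal.ofReal (g t l)) ∧ ENNReal.ofReal (M*P*(1+2*h+4*h^2)/12) < ∫⁻ p, f p := by
  set m := h * M with hm
  have hm1 : M / 2 ≤ m := by nlinarith
  have hm2 : m ≤ M := by nlinarith
  set A := g 0 0 with hA'
  set B := g (M/2) 0 with hB'
  set C := g m 0 with hC'
  set J := g (M/4) (1/2) with hJ'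
  set G := g (M/2) (1/2) with hG'
  set H := g m (1/2) with hH'
  have hD : Convex ℝ D := hc.1
  have seg : ∀ {x y : ℝ × ℝ}, x ∈ D → y ∈ D → ∀ s : ℝ, 0 ≤ s → s ≤ 1 → ((1 - s) • x + s • y) ∈ D := by
    intro x y hx hy s hs1 hs2
    exact hD hx hy (by linarith) hs1 (by ring)
  have mB : (M/2, (0:ℝ)) ∈ D := by
    have := seg m00 m10 (1/2) (by norm_num) (by norm_num)
    convert this using 1
    ext <;> simp <;> ring
  have mC : (m, (0:ℝ)) ∈ D := by
    have := seg m00 m10 h (by linarith) h2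
    convert this using 1
    ext <;> simp [hm]
  have mF : ((0:ℝ), (1/2:ℝ)) ∈ D := by
    have := seg m00 m01 (1/2) (by norm_num) (by norm_num)
    convert this using 1
    ext <;> simp
  have mJ : (M/4, (1/2:ℝ)) ∈ D := by
    have := seg mF mm (1/2) (by norm_num) (by norm_num)
    convert this using 1
    ext <;> simp <;> ring
  have hJG : G ≤ J := by
    have := hc.2 mF mm (show (0:ℝ) ≤ 1/2 by norm_num) (show (0:ℝ) ≤ 1/2 by norm_num) (by norm_num)
    have e : ((1/2:ℝ) • ((0:ℝ), (1/2:ℝ)) + (1/2:ℝ) • (M/2, (1/2:ℝ))) = (M/4, (1/2:ℝ)) := by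
      ext <;> simp <;> ring
    rw [e] at this
    simp only [smul_eq_mul] at this
    rw [← hJ', ← hG'] at this
    linarith
  have nA : 0 ≤ A := h0 _ _
  have nB : 0 ≤ B := h0 _ _
  have nC : 0 ≤ C := h0 _ _
  have nJ : 0 ≤ J := h0 _ _
  have nG : 0 ≤ G := h0 _ _
  have nH : 0 ≤ H := h0 _ _
  have hhalf : (1/2 : ℝ) = 2⁻¹ := by norm_num
  have key1 : ∀ i, (va M m i, v0 i) ∈ D := by
    rw [hhalf] at mF mJ mm mh
    intro i
    fin_cases i <;> simp [v0, va] <;> assumption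
  have key2 : ∀ i, (vb M m i, v0 i) ∈ D := by
    rw [hhalf] at mF mJ mm mh
    intro i
    fin_cases i <;> simp [v0, vb] <;> assumption
  have key3 : ∀ i, (vp M m i, v1 i) ∈ D := by
    rw [hhalf] at mF mJ mm mh
    intro i
    fin_cases i <;> simp [v1, vp] <;> assumption
  have key4 : ∀ i, vx A B C J G H i ≤ g (va M m i) (v0 i) := by
    intro i
    fin_cases i
    · exact hanti
    · exact le_refl J
    · exact le_refl A
    · exact le_refl B
    · exact le_refl G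
    · exact le_refl C
    · exact hanti
    · exact le_refl J
    · exact le_refl G
  have key5 : ∀ i, vy A B C J G H i ≤ g (vb M m i) (v0 i) := by
    intro i
    fin_cases i
    · exact le_refl J
    · exact le_refl G
    · exact le_refl B
    · exact le_refl C
    · exact le_refl H
    · exact h0 _ _
    · exact le_refl J
    · exact le_refl G
    · exact le_refl H
  have key6 : ∀ i, vz A B C J G H i ≤ g (vp M m i) (v1 i) := by
    intro i
    fin_cases i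
    · exact le_refl A
    · exact le_refl A
    · exact le_refl G
    · exact le_refl G
    · exact le_refl C
    · exact le_refl H
    · exact h0 _ _
    · exact h0 _ _
    · exact h0 _ _
  have key : ∀ i q, q ∈ T M m i → q ∈ D ∧
      Lf (vk i) (v0 i) (va M m i) (vb M m i) (vp M m i) (vx A B C J G H i) (vy A B C J G H i) (vz A B C J G H i) q ≤
        g q.1 q.2 := by
    intro i q hq
    have hlt := Tr_lt hq
    refine tri_le hc (l₁ := v1 i) ?_ hlt ?_ ?_ ?_ ?_ ?_ ?_ hq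
    · exact vkv i
    · exact key1 i
    · exact key2 i
    · exact key3 i
    · exact key4 i
    · exact key5 i
    · exact key6 i
  refine ⟨fun q => ∑ i, pc M m A B C J G H i q, ?_, ?_, ?_, ?_⟩
  · exact Finset.measurable_sum _ fun i _ => measurable_pc _ _ _ _ _ _ _ _ i
  · intro t l hf
    obtain ⟨i, -, hi⟩ := Finset.exists_ne_zero_of_sum_ne_zero hf
    have hq : (t, l) ∈ T M m i := by
      by_contra h
      exact hi (indicator_of_notMem h _)
    exact ⟨(T_pos hM hm1 hq).1, (T_pos hM hm1 hq).2, (key i _ hq).1⟩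
  · intro t l
    by_cases hq : ∃ i, (t, l) ∈ T M m i
    · obtain ⟨i, hi⟩ := hq
      have e : ∑ j, pc M m A B C J G H j (t, l) = pc M m A B C J G H i (t, l) := by
        apply Finset.sum_eq_single i
        · intro j _ hj
          apply indicator_of_notMem
          intro hj'
          rcases lt_or_gt_of_ne hj with h | h
          · exact T_disj hM hm1 hm2 h hj' hi
          · exact T_disj hM hm1 hm2 h hi hj'
        · intro h
          exact absurd (Finset.mem_univ i) h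
      show ∑ j, pc M m A B C J G H j (t, l) ≤ _
      rw [e, pc, indicator_of_mem hi]
      exact ENNReal.ofReal_le_ofReal (key i _ hi).2
    · push Not at hq
      have e : ∑ j, pc M m A B C J G H j (t, l) = 0 := by
        apply Finset.sum_eq_zero
        intro j _
        exact indicator_of_notMem (hq j) _
      show ∑ j, pc M m A B C J G H j (t, l) ≤ _
      rw [e]
      exact bot_le
  · rw [lintegral_finsetSum _ fun i _ => measurable_pc _ _ _ _ _ _ _ _ i]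
    simp only [lintegral_pc hM hm1 hm2 nA nB nC nJ nG nH]
    rw [← ENNReal.ofReal_sum_of_nonneg]
    · rw [ENNReal.ofReal_lt_ofReal_iff_of_nonneg (by positivity)]
      have e : ∑ i, ((vb M m i - va M m i) * (vx A B C J G H i + vy A B C J G H i + vz A B C J G H i) / (6 * 2))
          = M * (A + 3 / 2 * J + G + B / 2 + (h - 1 / 2) * (B + 2 * C + 3 * G + 2 * H) + (1 - h) * (C + H)) / 12 := by
        simp only [Fin.sum_univ_succ, vb, va, vx, vy, vz]
        simp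
        rw [hm]
        ring
      rw [e]
      have k1 : P * (1 + 2 * h + 4 * h ^ 2) <
          A + 3 / 2 * J + G + B / 2 + (h - 1 / 2) * (B + 2 * C + 3 * G + 2 * H) + (1 - h) * (C + H) := by
        have s1 : 0 ≤ (h - 1/2) * (B + G - 2 * h * P) := mul_nonneg (by linarith) (by linarith)
        have s2 : 0 ≤ (h - 1/2) * (C + H - P) := mul_nonneg (by linarith) (by linarith)
        have s3 : 0 ≤ (1 - h) * (C + H - P) := mul_nonneg (by linarith) (by linarith)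
        have s4 : 0 ≤ (J - G) / 2 + 2 * (h - 1/2) * (G - h * P) := by
          rcases le_total (h * P) G with hg | hg
          · have : 0 ≤ (h - 1/2) * (G - h * P) := mul_nonneg (by linarith) (by linarith)
            linarith
          · have : 0 ≤ (1 - h) * (h * P - G) := mul_nonneg (by linarith) (by linarith)
            nlinarith
        nlinarith
      have k2 : M * (P * (1 + 2 * h + 4 * h ^ 2)) < M * (A + 3 / 2 * J + G + B / 2 +
          (h - 1 / 2) * (B + 2 * C + 3 * G + 2 * H) + (1 - h) * (C + H)) := mul_lt_mul_of_pos_left k1 hM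
      linarith
    · intro i _
      obtain ⟨hx, hy, hz⟩ := v_nonneg nA nB nC nJ nG nH i
      have h := va_le hM hm1 hm2 i
      have h' : 0 ≤ vb M m i - va M m i := by linarith
      positivity

/-- The set form. -/
theorem minorant_set {g : ℝ → ℝ → ℝ} {D : Set (ℝ × ℝ)} (hc : ConcaveOn ℝ D (fun p => g p.1 p.2))
    (h0 : ∀ t l, 0 ≤ g t l) {M P h : ℝ} (hM : 0 < M) (hP : 0 < P) (h1 : 1/2 ≤ h) (h2 : h ≤ 1)
    (m00 : ((0:ℝ), (0:ℝ)) ∈ D) (m10 : (M, (0:ℝ)) ∈ D) (m01 : ((0:ℝ), (1:ℝ)) ∈ D) (mh : (h*M, (1/2:ℝ)) ∈ D)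
    (mm : (M/2, (1/2:ℝ)) ∈ D) (hA : P ≤ g 0 0) (hanti : g (M/4) (1/2) ≤ g 0 (1/2))
    (i1 : 2*h*P < g (M/4) (1/2) + g (M/2) (1/2)) (i2 : 2*h*P < g (M/2) 0 + g (M/2) (1/2))
    (i4 : P < g (h*M) 0 + g (h*M) (1/2)) :
    ENNReal.ofReal (M*P*(1+2*h+4*h^2)/12) <
      ∫⁻ p in D ∩ {p | 0 < p.1 ∧ 0 < p.2}, ENNReal.ofReal (g p.1 p.2) := by
  obtain ⟨f, -, f2, f3, f4⟩ := minorant hc h0 hM hP h1 h2 m00 m10 m01 mh mm hA hanti i1 i2 i4
  refine f4.trans_le (le_trans (lintegral_mono ?_) (lintegral_indicator_le _ _))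
  rintro ⟨t, l⟩
  by_cases hf : f (t, l) = 0
  · rw [hf]; exact bot_le
  · obtain ⟨g1, g2, g3⟩ := f2 t l hf
    rw [indicator_of_mem (show (t, l) ∈ D ∩ {p : ℝ × ℝ | 0 < p.1 ∧ 0 < p.2} from ⟨g3, g1, g2⟩)]
    exact f3 t l

/-- The iterated form. -/
theorem minorant_iter {g : ℝ → ℝ → ℝ} {D : Set (ℝ × ℝ)} (hc : ConcaveOn ℝ D (fun p => g p.1 p.2))
    (h0 : ∀ t l, 0 ≤ g t l) {M P h : ℝ} (hM : 0 < M) (hP : 0 < P) (h1 : 1/2 ≤ h) (h2 : h ≤ 1)
    (m00 : ((0:ℝ), (0:ℝ)) ∈ D) (m10 : (M, (0:ℝ)) ∈ D) (m01 : ((0:ℝ), (1:ℝ)) ∈ D) (mh : (h*M, (1/2:ℝ)) ∈ D)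
    (mm : (M/2, (1/2:ℝ)) ∈ D) (hA : P ≤ g 0 0) (hanti : g (M/4) (1/2) ≤ g 0 (1/2))
    (i1 : 2*h*P < g (M/4) (1/2) + g (M/2) (1/2)) (i2 : 2*h*P < g (M/2) 0 + g (M/2) (1/2))
    (i4 : P < g (h*M) 0 + g (h*M) (1/2)) :
    ENNReal.ofReal (M*P*(1+2*h+4*h^2)/12) <
      ∫⁻ t in Ioi (0:ℝ), ∫⁻ l in Ioi (0:ℝ), ENNReal.ofReal (g t l) := by
  obtain ⟨f, f1, f2, f3, f4⟩ := minorant hc h0 hM hP h1 h2 m00 m10 m01 mh mm hA hanti i1 i2 i4
  refine f4.trans_le ?_
  rw [Measure.volume_eq_prod, lintegral_prod _ f1.aemeasurable]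
  refine le_trans (lintegral_mono fun t => ?_) (lintegral_indicator_le (fun t => ∫⁻ l in Ioi (0:ℝ), ENNReal.ofReal (g t l)) _)
  by_cases ht : t ∈ Ioi (0:ℝ)
  · rw [indicator_of_mem ht]
    refine le_trans (lintegral_mono fun l => ?_) (lintegral_indicator_le (fun l => ENNReal.ofReal (g t l)) _)
    by_cases hf : f (t, l) = 0
    · rw [hf]; exact bot_le
    · rw [indicator_of_mem (show l ∈ Ioi (0:ℝ) from (f2 t l hf).2.1)]
      exact f3 t l
  · have : ∀ l, f (t, l) = 0 := by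
      intro l
      by_contra hf
      exact ht (f2 t l hf).1
    simp [this]

end Pool.Agent.Helper77.R2
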