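import Mathlib

/-!
# R2-Tri: affine minorants on triangles with one edge parallel to the first axis

`Tr k l₀ a b p`: the open triangle with vertices `(a, l₀)`, `(b, l₀)`, `(p, l₀ + 1/k)`.
-/

set_option autoImplicit false
open MeasureTheory Set

namespace Pool.Agent.Helper77.R2

/-- Open triangle. -/
def Tr (k l₀ a b p : ℝ) : Set (ℝ × ℝ) :=
  {q | 0 < k * (q.2 - l₀) ∧ k * (q.2 - l₀) < 1 ∧
    (1 - k * (q.2 - l₀)) * a + k * (q.2 - l₀) * p < q.1 ∧
    q.1 < (1 - k * (q.2 - l₀)) * b + k * (q.2 - l₀) * p}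

/-- Affine function with the values `x, y, z` at the vertices. -/
noncomputable def Lf (k l₀ a b p x y z : ℝ) (q : ℝ × ℝ) : ℝ :=
  (((1 - k * (q.2 - l₀)) * b + k * (q.2 - l₀) * p - q.1) / (b - a)) * x +
    ((q.1 - ((1 - k * (q.2 - l₀)) * a + k * (q.2 - l₀) * p)) / (b - a)) * y + k * (q.2 - l₀) * z

lemma measurableSet_Tr (k l₀ a b p : ℝ) : MeasurableSet (Tr k l₀ a b p) := by
  have h1 : Measurable (fun q : ℝ × ℝ => k * (q.2 - l₀)) := by fun_prop
  have h2 : Measurable (fun q : ℝ × ℝ => (1 - k * (q.2 - l₀)) * a + k * (q.2 - l₀) * p) := by fun_prop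
  have h3 : Measurable (fun q : ℝ × ℝ => (1 - k * (q.2 - l₀)) * b + k * (q.2 - l₀) * p) := by fun_prop
  exact (measurableSet_lt measurable_const h1).inter ((measurableSet_lt h1 measurable_const).inter
    ((measurableSet_lt h2 measurable_fst).inter (measurableSet_lt measurable_fst h3)))

lemma measurable_Lf (k l₀ a b p x y z : ℝ) : Measurable (Lf k l₀ a b p x y z) := by
  unfold Lf
  fun_prop

lemma aff {x y c d : ℝ} (hxy : x ≤ y) (h : ∀ t ∈ Ioo x y, 0 ≤ c + d * t) :
    ∫⁻ t in Ioo x y, ENNReal.ofReal (c + d * t) = ENNReal.ofReal ((y - x) * (c + d * (x + y) / 2)) := by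
  have hi : IntegrableOn (fun t : ℝ => c + d * t) (Ioo x y) :=
    (Continuous.integrableOn_Icc (by fun_prop)).mono_set Ioo_subset_Icc_self
  rw [← ofReal_integral_eq_lintegral_ofReal hi]
  · congr 1
    rw [← integral_Ioc_eq_integral_Ioo, ← intervalIntegral.integral_of_le hxy]
    have : ∫ t in x..y, (c + d * t) = (y - x) * (c + d * (x + y) / 2) := by
      rw [intervalIntegral.integral_add (by simp) (by apply Continuous.intervalIntegrable; fun_prop),
        intervalIntegral.integral_const_mul, integral_id, intervalIntegral.integral_const, smul_eq_mul]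
      ring
    rw [this]
  · filter_upwards [ae_restrict_mem measurableSet_Ioo] with t ht
    exact h t ht

lemma quad {c d : ℝ} (hc : 0 ≤ c) (hd : 0 ≤ d) :
    ∫⁻ u in Ioo (0:ℝ) 1, ENNReal.ofReal ((1 - u) * ((1 - u) * c + u * d)) = ENNReal.ofReal (c / 3 + d / 6) := by
  have hi : IntegrableOn (fun u : ℝ => (1 - u) * ((1 - u) * c + u * d)) (Ioo 0 1) :=
    (Continuous.integrableOn_Icc (by fun_prop)).mono_set Ioo_subset_Icc_self
  rw [← ofReal_integral_eq_lintegral_ofReal hi]
  · congr 1
    rw [← integral_Ioc_eq_integral_Ioo, ← intervalIntegral.integral_of_le zero_le_one]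
    have h1 : ∀ u ∈ uIcc (0:ℝ) 1, HasDerivAt (fun u : ℝ => -(c * (1 - u) ^ 3 / 3) + d * (u ^ 2 / 2 - u ^ 3 / 3))
        ((1 - u) * ((1 - u) * c + u * d)) u := by
      intro u _
      have e1 : HasDerivAt (fun u : ℝ => 1 - u) (-1) u := by
        simpa using (hasDerivAt_id u).const_sub 1
      have e2 := ((e1.pow 3).const_mul c).div_const 3
      have e3 := ((hasDerivAt_pow 2 u).div_const 2).sub ((hasDerivAt_pow 3 u).div_const 3)
      have e4 := e2.neg.add (e3.const_mul d)
      have e6 : ((1 - u) * ((1 - u) * c + u * d)) = -(c * ((3 : ℕ) * (1 - u) ^ (3 - 1) * -1) / 3)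
          + d * (((2 : ℕ) * u ^ (2 - 1)) / 2 - ((3 : ℕ) * u ^ (3 - 1)) / 3) := by
        push_cast
        norm_num
        ring
      rw [e6]
      exact e4
    rw [intervalIntegral.integral_eq_sub_of_hasDerivAt h1 (by apply Continuous.intervalIntegrable; fun_prop)]
    ring
  · filter_upwards [ae_restrict_mem measurableSet_Ioo] with u hu
    have h1 : 0 ≤ 1 - u := by linarith [hu.2]
    have h2 : 0 ≤ u := hu.1.le
    simp only [Pi.zero_apply]
    positivity

lemma scale {Φ : ℝ → ENNReal} (hΦ : Measurable Φ) {k : ℝ} (hk : k ≠ 0) (l₀ : ℝ) :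
    ∫⁻ l, Φ (k * (l - l₀)) = ENNReal.ofReal |k⁻¹| * ∫⁻ u, Φ u := by
  have h1 : ∫⁻ l, Φ (k * (l - l₀)) = ∫⁻ l, Φ (k * l) :=
    lintegral_sub_right_eq_self (fun l => Φ (k * l)) l₀
  rw [h1]
  have h2 : ∫⁻ u, Φ u ∂(Measure.map (k * ·) volume) = ∫⁻ l, Φ (k * l) :=
    lintegral_map hΦ (measurable_const_mul k)
  rw [← h2, Real.map_volume_mul_left hk, lintegral_smul_measure]
  simp

theorem tri_lintegral {k l₀ a b p x y z : ℝ} (hk : k ≠ 0) (hab : a < b) (hx : 0 ≤ x) (hy : 0 ≤ y) (hz : 0 ≤ z) :
    ∫⁻ q in Tr k l₀ a b p, ENNReal.ofReal (Lf k l₀ a b p x y z q) =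
      ENNReal.ofReal ((b - a) * (x + y + z) / (6 * |k|)) := by
  have hba : 0 < b - a := by linarith
  rw [← lintegral_indicator (measurableSet_Tr _ _ _ _ _), Measure.volume_eq_prod]
  have hm : Measurable ((Tr k l₀ a b p).indicator fun q => ENNReal.ofReal (Lf k l₀ a b p x y z q)) :=
    (measurable_Lf _ _ _ _ _ _ _ _).ennreal_ofReal.indicator (measurableSet_Tr _ _ _ _ _)
  rw [lintegral_prod_symm _ hm.aemeasurable]
  set Φ : ℝ → ENNReal := (Ioo (0:ℝ) 1).indicator
    (fun u => ENNReal.ofReal ((1 - u) * ((1 - u) * ((b - a) * (x + y) / 2) + u * ((b - a) * z)))) with hΦ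
  have hΦm : Measurable Φ := by
    apply Measurable.indicator _ measurableSet_Ioo
    apply Measurable.ennreal_ofReal
    fun_prop
  have hin : ∀ l : ℝ, ∫⁻ t, (Tr k l₀ a b p).indicator (fun q => ENNReal.ofReal (Lf k l₀ a b p x y z q)) (t, l)
      = Φ (k * (l - l₀)) := by
    intro l
    set u := k * (l - l₀) with hu
    by_cases h : u ∈ Ioo (0:ℝ) 1
    · rw [hΦ, indicator_of_mem h]
      set lo := (1 - u) * a + u * p with hlo
      set hi := (1 - u) * b + u * p with hhi
      have h1u : 0 < 1 - u := by linarith [h.2]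
      have hle : lo ≤ hi := by
        have : (1 - u) * a ≤ (1 - u) * b := by gcongr
        linarith
      have e1 : (fun t : ℝ => (Tr k l₀ a b p).indicator (fun q => ENNReal.ofReal (Lf k l₀ a b p x y z q)) (t, l))
          = (Ioo lo hi).indicator (fun t => ENNReal.ofReal ((hi * x - lo * y) / (b - a) + u * z + (y - x) / (b - a) * t)) := by
        funext t
        by_cases ht : t ∈ Ioo lo hi
        · rw [indicator_of_mem ht, indicator_of_mem (show (t, l) ∈ Tr k l₀ a b p from ⟨h.1, h.2, ht.1, ht.2⟩)]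
          congr 1
          simp only [Lf]
          rw [← hu, ← hlo, ← hhi]
          field_simp
          ring
        · rw [indicator_of_notMem ht, indicator_of_notMem]
          intro hq
          exact ht ⟨hq.2.2.1, hq.2.2.2⟩
      rw [e1, lintegral_indicator measurableSet_Ioo, aff hle]
      · congr 1
        have e2 : hi - lo = (1 - u) * (b - a) := by rw [hhi, hlo]; ring
        have e3 : (hi * x - lo * y) / (b - a) + u * z + (y - x) / (b - a) * (lo + hi) / 2
            = (1 - u) * (x + y) / 2 + u * z := by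
          have : (hi * x - lo * y) / (b - a) + (y - x) / (b - a) * (lo + hi) / 2 = ((hi - lo) / (b - a)) * (x + y) / 2 := by
            field_simp
            ring
          rw [e2] at this
          have e4 : (1 - u) * (b - a) / (b - a) = 1 - u := by field_simp
          rw [e4] at this
          linarith
        rw [e2, e3]
        ring
      · intro t ht
        have e5 : (hi * x - lo * y) / (b - a) + u * z + (y - x) / (b - a) * t
            = ((hi - t) / (b - a)) * x + ((t - lo) / (b - a)) * y + u * z := by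
          field_simp
          ring
        rw [e5]
        have h3 : 0 ≤ hi - t := by linarith [ht.2]
        have h4 : 0 ≤ t - lo := by linarith [ht.1]
        have h5 : 0 ≤ u := h.1.le
        positivity
    · rw [hΦ, indicator_of_notMem h]
      have : (fun t : ℝ => (Tr k l₀ a b p).indicator (fun q => ENNReal.ofReal (Lf k l₀ a b p x y z q)) (t, l)) = fun _ => 0 := by
        funext t
        apply indicator_of_notMem
        intro hq
        exact h ⟨hq.1, hq.2.1⟩
      rw [this]; simp
  rw [lintegral_congr hin, scale hΦm hk, hΦ, lintegral_indicator measurableSet_Ioo, quad (by positivity) (by positivity),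
    ← ENNReal.ofReal_mul (abs_nonneg _)]
  congr 1
  rw [abs_inv]
  have hk' : |k| ≠ 0 := abs_ne_zero.mpr hk
  field_simp
  ring

/-- Value of a concave function in a triangle. -/
theorem tri_le {g : ℝ → ℝ → ℝ} {D : Set (ℝ × ℝ)} (hc : ConcaveOn ℝ D (fun p => g p.1 p.2)) {k l₀ l₁ a b p x y z : ℝ}
    (hl : k * (l₁ - l₀) = 1) (hab : a < b) (ha : (a, l₀) ∈ D) (hb : (b, l₀) ∈ D) (hp : (p, l₁) ∈ D) (hx : x ≤ g a l₀)
    (hy : y ≤ g b l₀) (hz : z ≤ g p l₁) {q : ℝ × ℝ} (hq : q ∈ Tr k l₀ a b p) :
    q ∈ D ∧ Lf k l₀ a b p x y z q ≤ g q.1 q.2 := by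
  obtain ⟨h1, h2, h3, h4⟩ := hq
  have hba : 0 < b - a := by linarith
  have hk : k ≠ 0 := by intro h; rw [h] at hl; simp at hl
  set u := k * (q.2 - l₀) with hu
  have w1 : 0 ≤ (((1 - u) * b + u * p - q.1) / (b - a)) := div_nonneg (by linarith) hba.le
  have w2 : 0 ≤ ((q.1 - ((1 - u) * a + u * p)) / (b - a)) := div_nonneg (by linarith) hba.le
  set w : Fin 3 → ℝ := ![(((1 - u) * b + u * p - q.1) / (b - a)), ((q.1 - ((1 - u) * a + u * p)) / (b - a)), u] with hw
  set v : Fin 3 → ℝ × ℝ := ![(a, l₀), (b, l₀), (p, l₁)] with hv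
  have hw0 : ∀ i ∈ (Finset.univ : Finset (Fin 3)), 0 ≤ w i := by
    intro i _
    fin_cases i
    · exact w1
    · exact w2
    · exact h1.le
  have hw1 : ∑ i ∈ (Finset.univ : Finset (Fin 3)), w i = 1 := by
    rw [Fin.sum_univ_three]
    simp only [hw, Matrix.cons_val_zero, Matrix.cons_val_one, Matrix.cons_val_two, Matrix.head_cons, Matrix.tail_cons, Matrix.cons_val]
    field_simp
    ring
  have hvm : ∀ i ∈ (Finset.univ : Finset (Fin 3)), v i ∈ D := by
    intro i _
    fin_cases i
    · exact ha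
    · exact hb
    · exact hp
  have hsum : ∑ i ∈ (Finset.univ : Finset (Fin 3)), w i • v i = q := by
    rw [Fin.sum_univ_three]
    simp only [hw, hv, Matrix.cons_val_zero, Matrix.cons_val_one, Matrix.cons_val_two, Matrix.head_cons, Matrix.tail_cons, Matrix.cons_val]
    ext
    · simp
      field_simp
      ring
    · simp
      have e : (((1 - u) * b + u * p - q.1) / (b - a)) * l₀ + ((q.1 - ((1 - u) * a + u * p)) / (b - a)) * l₀ + u * l₁
          = l₀ + u * (l₁ - l₀) := by
        field_simp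
        ring
      rw [e, hu]
      have : k * (q.2 - l₀) * (l₁ - l₀) = (k * (l₁ - l₀)) * (q.2 - l₀) := by ring
      rw [this, hl]; ring
  refine ⟨?_, ?_⟩
  · rw [← hsum]; exact hc.1.sum_mem hw0 hw1 hvm
  · have := hc.le_map_sum hw0 hw1 hvm
    rw [hsum, Fin.sum_univ_three] at this
    simp only [hw, hv, Matrix.cons_val_zero, Matrix.cons_val_one, Matrix.cons_val_two, Matrix.head_cons, Matrix.tail_cons, Matrix.cons_val,
      smul_eq_mul] at this
    refine le_trans ?_ this
    unfold Lf
    rw [← hu]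
    gcongr

end Pool.Agent.Helper77.R2
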